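import Pool.Agent.Lib.MP_d69fce_al.Defs

namespace Pool.Agent.Lib.MP_d69fce_al

open LieModule.Cohomology

section
variable {L : Type} [LieRing L] [LieAlgebra ℂ L] (ω : twoCocycle ℂ L (TrivialLieModule ℂ L ℂ))

/-- The linear functional `f` on `L`, extended by zero to the central extension. -/
noncomputable def extFun (f : L →ₗ[ℂ] ℂ) : LieAlgebra.ofTwoCocycle ω →ₗ[ℂ] ℂ where
  toFun x := f ((LieAlgebra.ofProd ω).symm x).1
  map_add' x y := by simp
  map_smul' a x := by simp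

/-- The inclusion of the centre. -/
noncomputable def centreIncl : ℂ →ₗ[ℂ] LieAlgebra.ofTwoCocycle ω where
  toFun a := LieAlgebra.ofProd ω (0, (TrivialLieModule.equiv ℂ L ℂ).symm a)
  map_add' x y := by rw [← LieAlgebra.of_add]; simp
  map_smul' a x := by
    rw [← LieAlgebra.of_smul, smul_eq_mul, ← smul_eq_mul (a := a), map_smul]
    simp

theorem extFun_centre (f : L →ₗ[ℂ] ℂ) (a : ℂ) : extFun ω f (centreIncl ω a) = 0 := by
  simp [extFun, centreIncl]

theorem extFun_lie (f : L →ₗ[ℂ] ℂ) (hf : ∀ x y : L, f ⁅x, y⁆ = 0)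
    (x y : LieAlgebra.ofTwoCocycle ω) : extFun ω f ⁅x, y⁆ = 0 := by
  rw [LieAlgebra.bracket_ofTwoCocycle]
  simp [extFun, hf]

theorem centre_lie (a : ℂ) (x : LieAlgebra.ofTwoCocycle ω) : ⁅centreIncl ω a, x⁆ = 0 := by
  rw [LieAlgebra.bracket_ofTwoCocycle]
  simp only [centreIncl, LinearMap.coe_mk, AddHom.coe_mk, Equiv.symm_apply_apply, zero_lie,
    LieModule.IsTrivial.trivial, sub_zero, add_zero]
  rw [map_zero]
  rfl

theorem lie_centre (a : ℂ) (x : LieAlgebra.ofTwoCocycle ω) : ⁅x, centreIncl ω a⁆ = 0 := by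
  rw [← lie_skew, centre_lie, neg_zero]

theorem centreIncl_ne (a : ℂ) (ha : a ≠ 0) : centreIncl ω a ≠ 0 := by
  intro h
  have h1 := congrArg (fun z => ((LieAlgebra.ofProd ω).symm z).2) h
  simp [centreIncl] at h1
  exact ha h1

/-- The product `x · y = f(x) f(y) c`. -/
noncomputable def mulOfFun (f : L →ₗ[ℂ] ℂ) :
    LieAlgebra.ofTwoCocycle ω →ₗ[ℂ] LieAlgebra.ofTwoCocycle ω →ₗ[ℂ] LieAlgebra.ofTwoCocycle ω :=
  LinearMap.mk₂ ℂ (fun x y => centreIncl ω (extFun ω f x * extFun ω f y))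
    (by intro x y z; rw [map_add, add_mul, map_add])
    (by intro a x y; rw [map_smul, smul_mul_assoc, map_smul])
    (by intro x y z; rw [map_add, mul_add, map_add])
    (by intro a x y; rw [map_smul, mul_smul_comm, map_smul])

theorem mulOfFun_isTPS (f : L →ₗ[ℂ] ℂ) (hf : ∀ x y : L, f ⁅x, y⁆ = 0) :
    IsTPS (mulOfFun ω f) := by
  refine ⟨?_, ?_, ?_⟩
  · intro x y
    simp only [mulOfFun, LinearMap.mk₂_apply]
    rw [mul_comm]
  · intro x y z
    simp only [mulOfFun, LinearMap.mk₂_apply, extFun_centre, zero_mul, mul_zero]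
  · intro x y z
    simp only [mulOfFun, LinearMap.mk₂_apply, extFun_lie ω f hf, mul_zero, map_zero, smul_zero,
      centre_lie, lie_centre, add_zero]

theorem not_onlyTrivialTPS (f : L →ₗ[ℂ] ℂ) (hf : ∀ x y : L, f ⁅x, y⁆ = 0) (x : L)
    (hx : f x = 1) : ¬ OnlyTrivialTPS (LieAlgebra.ofTwoCocycle ω) := by
  intro h
  have h2 := h (mulOfFun ω f) (mulOfFun_isTPS ω f hf) (LieAlgebra.ofProd ω (x, 0))
    (LieAlgebra.ofProd ω (x, 0))
  have h3 : centreIncl ω (f x * f x) = 0 := h2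
  rw [hx] at h3
  exact centreIncl_ne ω _ (by norm_num) h3

theorem not_onlyTrivialHalfDer (f : L →ₗ[ℂ] ℂ) (hf : ∀ x y : L, f ⁅x, y⁆ = 0) (x : L)
    (hx : f x = 1) : ¬ OnlyTrivialHalfDer (LieAlgebra.ofTwoCocycle ω) := by
  intro h
  obtain ⟨c, hc⟩ := h ((centreIncl ω).comp (extFun ω f)) (by
    intro x y
    simp only [LinearMap.comp_apply, extFun_lie ω f hf, map_zero, centre_lie, lie_centre,
      add_zero, smul_zero])
  have h1 := hc (centreIncl ω 1)
  simp only [LinearMap.comp_apply, extFun_centre, map_zero] at h1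
  have hc0 : c = 0 := by
    rw [← map_smul] at h1
    by_contra hne
    exact centreIncl_ne ω (c • 1) (by simpa using hne) h1.symm
  have h3 := hc (LieAlgebra.ofProd ω (x, 0))
  rw [hc0, zero_smul] at h3
  have h4 : centreIncl ω (f x) = 0 := h3
  rw [hx] at h4
  exact centreIncl_ne ω _ one_ne_zero h4

end

end Pool.Agent.Lib.MP_d69fce_al
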