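import Pool.Agent.Lib.MP_d69fce_al.Main

/-! # When does a one-dimensional central extension have non-trivial structures? -/

namespace Pool.Agent.Lib.MP_d69fce_al

/-- The centre of the Lie algebra `L` is zero. -/
def IsCentreless (L : Type) [LieRing L] : Prop := ∀ z : L, (∀ x : L, ⁅z, x⁆ = 0) → z = 0

/-- The Lie algebra `L` is perfect: it is spanned by the brackets `[x, y]`. -/
def IsPerfectAlg (L : Type) [LieRing L] [LieAlgebra ℂ L] : Prop :=
  Submodule.span ℂ {u : L | ∃ x y : L, u = ⁅x, y⁆} = ⊤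

section
variable {L E : Type} [LieRing L] [LieAlgebra ℂ L] [LieRing E] [LieAlgebra ℂ E]
  {ω : L →ₗ[ℂ] L →ₗ[ℂ] ℂ} {e : E ≃ₗ[ℂ] L × ℂ}

theorem exists_functional (h : ¬ IsPerfectAlg L) :
    ∃ f : L →ₗ[ℂ] ℂ, f ≠ 0 ∧ ∀ x y : L, f ⁅x, y⁆ = 0 := by
  obtain ⟨f, hf, hle⟩ := Submodule.exists_le_ker_of_lt_top _ (lt_top_iff_ne_top.2 h)
  exact ⟨f, hf, fun x y => hle (Submodule.subset_span ⟨x, y, rfl⟩)⟩

theorem functional_zero (h : IsPerfectAlg L) {g : L →ₗ[ℂ] ℂ} (hg : ∀ x y : L, g ⁅x, y⁆ = 0) :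
    g = 0 := by
  have h1 : (⊤ : Submodule ℂ L) ≤ LinearMap.ker g := by
    rw [← h, Submodule.span_le]
    rintro u ⟨x, y, rfl⟩
    exact hg x y
  ext x
  exact h1 Submodule.mem_top

/-- The central element `c`. -/
noncomputable def cen (e : E ≃ₗ[ℂ] L × ℂ) : E := e.symm (0, 1)

theorem e_cen : e (cen e) = (0, 1) := by
  simp [cen]

theorem cen_ne : cen e ≠ 0 := by
  intro h
  have h1 := e_cen (e := e)
  rw [h, map_zero] at h1
  exact zero_ne_one (congrArg Prod.snd h1)

theorem cen_lie (he : IsCentralExt ω e) (u : E) : ⁅cen e, u⁆ = 0 := by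
  apply e.injective
  rw [he, e_cen, map_zero, zero_lie, map_zero]
  rfl

theorem lie_cen (he : IsCentralExt ω e) (u : E) : ⁅u, cen e⁆ = 0 := by
  rw [← lie_skew, cen_lie he, neg_zero]

theorem f_lie (he : IsCentralExt ω e) {f : L →ₗ[ℂ] ℂ} (hf : ∀ x y : L, f ⁅x, y⁆ = 0) (u v : E) :
    f (e ⁅u, v⁆).1 = 0 := by
  rw [he]
  exact hf _ _

theorem nontrivial_halfDer (he : IsCentralExt ω e) (h : ¬ IsPerfectAlg L) :
    ¬ OnlyTrivialHalfDer E := by
  intro ht
  obtain ⟨f, hf0, hf⟩ := exists_functional h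
  obtain ⟨c, hc⟩ := ht ((f ∘ₗ LinearMap.fst ℂ L ℂ ∘ₗ e.toLinearMap).smulRight (cen e)) (by
    intro u v
    simp only [LinearMap.smulRight_apply, LinearMap.comp_apply, LinearMap.fst_apply,
      LinearEquiv.coe_coe, f_lie he hf, zero_smul, smul_lie, lie_smul, cen_lie he, lie_cen he,
      smul_zero, add_zero])
  have h1 := hc (cen e)
  simp only [LinearMap.smulRight_apply, LinearMap.comp_apply, LinearMap.fst_apply,
    LinearEquiv.coe_coe, e_cen, map_zero, zero_smul] at h1
  have hc0 : c = 0 := by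
    rcases smul_eq_zero.1 h1.symm with h2 | h2
    · exact h2
    · exact absurd h2 cen_ne
  apply hf0
  ext x
  have h3 := hc (e.symm (x, 0))
  simp only [LinearMap.smulRight_apply, LinearMap.comp_apply, LinearMap.fst_apply,
    LinearEquiv.coe_coe, LinearEquiv.apply_symm_apply, hc0, zero_smul] at h3
  rcases smul_eq_zero.1 h3 with h2 | h2
  · exact h2
  · exact absurd h2 cen_ne

/-- The product `u · v = f(u) f(v) c`. -/
noncomputable def mulF (e : E ≃ₗ[ℂ] L × ℂ) (f : L →ₗ[ℂ] ℂ) : E →ₗ[ℂ] E →ₗ[ℂ] E :=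
  LinearMap.mk₂ ℂ (fun u v => (f (e u).1 * f (e v).1) • cen e)
    (by intro x y z; rw [map_add, Prod.fst_add, map_add, add_mul, add_smul])
    (by intro a x y; rw [map_smul, Prod.smul_fst, map_smul, smul_eq_mul, mul_assoc, mul_smul])
    (by intro x y z; rw [map_add, Prod.fst_add, map_add, mul_add, add_smul])
    (by
      intro a x y
      rw [map_smul, Prod.smul_fst, map_smul, smul_eq_mul, mul_left_comm, mul_smul])

theorem mulF_apply (f : L →ₗ[ℂ] ℂ) (u v : E) :
    mulF e f u v = (f (e u).1 * f (e v).1) • cen e := rfl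

theorem nontrivial_TPS (he : IsCentralExt ω e) (h : ¬ IsPerfectAlg L) :
    ¬ OnlyTrivialTPS E := by
  intro ht
  obtain ⟨f, hf0, hf⟩ := exists_functional h
  have h1 := ht (mulF e f) (by
    refine ⟨?_, ?_, ?_⟩
    · intro x y
      rw [mulF_apply, mulF_apply, mul_comm]
    · intro x y z
      have hl : ∀ (t : ℂ) (w : E), mulF e f (t • cen e) w = 0 := by
        intro t w
        rw [mulF_apply, map_smul, e_cen, Prod.smul_fst, smul_zero, map_zero, zero_mul, zero_smul]
      have hr : ∀ (t : ℂ) (w : E), mulF e f w (t • cen e) = 0 := by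
        intro t w
        rw [mulF_apply, map_smul, e_cen, Prod.smul_fst, smul_zero, map_zero, mul_zero, zero_smul]
      rw [mulF_apply f x y, hl, mulF_apply f y z, hr]
    · intro x y z
      simp only [mulF_apply, f_lie he hf, mul_zero, zero_smul, smul_zero, smul_lie, lie_smul,
        cen_lie he, lie_cen he, add_zero])
  apply hf0
  ext x
  have h3 := h1 (e.symm (x, 0)) (e.symm (x, 0))
  rw [mulF_apply, LinearEquiv.apply_symm_apply] at h3
  rcases smul_eq_zero.1 h3 with h2 | h2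
  · exact mul_self_eq_zero.1 h2
  · exact absurd h2 cen_ne

theorem rigid_halfDer (hc : IsCentreless L) (hL : OnlyTrivialHalfDer L) (he : IsCentralExt ω e)
    (hω : ¬ IsCoboundary ω) (hp : IsPerfectAlg L) : OnlyTrivialHalfDer E := by
  intro φ hφ
  have he' : ∀ u v : E, e ⁅u, v⁆ = (⁅(e u).1, (e v).1⁆, ω (e u).1 (e v).1) := he
  have hφ2 : ∀ u v, (2 : ℂ) • φ ⁅u, v⁆ = ⁅φ u, v⁆ + ⁅u, φ v⁆ := by
    intro u v
    rw [hφ, smul_smul]
    norm_num
  have h1 : (e (φ (cen e))).1 = 0 := by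
    apply hc
    intro x
    have h2 := hφ2 (cen e) (e.symm (x, 0))
    rw [cen_lie he, cen_lie he, map_zero, smul_zero, add_zero] at h2
    have h3 := congrArg (fun t => (e t).1) h2.symm
    simp only [he', map_zero, LinearEquiv.apply_symm_apply] at h3
    exact h3
  obtain ⟨lam, hlam⟩ : ∃ lam : ℂ, e (φ (cen e)) = (0, lam) := ⟨(e (φ (cen e))).2, Prod.ext h1 rfl⟩
  have hbr : ∀ x y : L, ⁅e.symm (x, 0), e.symm (y, 0)⁆ =
      e.symm (⁅x, y⁆, 0) + ω x y • cen e := by
    intro x y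
    apply e.injective
    rw [he, map_add, map_smul, e_cen]
    simp only [LinearEquiv.apply_symm_apply]
    ext
    · simp
    · simp
  obtain ⟨α, hα⟩ := hL (LinearMap.fst ℂ L ℂ ∘ₗ e.toLinearMap ∘ₗ φ ∘ₗ e.symm.toLinearMap ∘ₗ
      LinearMap.inl ℂ L ℂ) (by
    intro x y
    simp only [LinearMap.comp_apply, LinearMap.fst_apply, LinearMap.inl_apply,
      LinearEquiv.coe_coe]
    have h2 := hφ (e.symm (x, 0)) (e.symm (y, 0))
    rw [hbr, map_add, map_smul] at h2
    have h3 := congrArg (fun t => (e t).1) h2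
    simp only [map_add, map_smul, he', hlam, LinearEquiv.apply_symm_apply, Prod.fst_add,
      Prod.smul_fst, smul_zero, add_zero] at h3
    exact h3)
  simp only [LinearMap.comp_apply, LinearMap.fst_apply, LinearMap.inl_apply,
    LinearEquiv.coe_coe] at hα
  set g : L →ₗ[ℂ] ℂ := LinearMap.snd ℂ L ℂ ∘ₗ e.toLinearMap ∘ₗ φ ∘ₗ e.symm.toLinearMap ∘ₗ
      LinearMap.inl ℂ L ℂ with hg
  have hgx : ∀ x, e (φ (e.symm (x, 0))) = (α • x, g x) := fun x => Prod.ext (hα x) rfl
  have h4 : ∀ x y, g ⁅x, y⁆ = (α - lam) * ω x y := by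
    intro x y
    have h2 := hφ (e.symm (x, 0)) (e.symm (y, 0))
    rw [hbr, map_add, map_smul] at h2
    have h3 := congrArg (fun t => (e t).2) h2
    simp only [map_add, map_smul, he', hlam, hgx, LinearEquiv.apply_symm_apply, Prod.snd_add,
      Prod.smul_snd, smul_eq_mul, LinearMap.smul_apply] at h3
    linear_combination h3
  have h5 : α = lam := by
    by_contra hne
    have hne' : α - lam ≠ 0 := sub_ne_zero.2 hne
    refine hω ⟨(α - lam)⁻¹ • g, fun x y => ?_⟩
    rw [LinearMap.smul_apply, h4, smul_eq_mul, inv_mul_cancel_left₀ hne']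
  have h6 : g = 0 := functional_zero hp fun x y => by rw [h4, h5, sub_self, zero_mul]
  refine ⟨α, fun u => ?_⟩
  have hu : u = e.symm ((e u).1, 0) + (e u).2 • cen e := by
    apply e.injective
    rw [map_add, map_smul, e_cen, LinearEquiv.apply_symm_apply]
    ext
    · simp
    · simp
  apply e.injective
  rw [hu, map_add, map_smul, map_add, map_smul, hgx, hlam, h6, ← h5, map_smul, map_add, map_smul,
    e_cen, LinearEquiv.apply_symm_apply]
  ext
  · simp
  · simp [mul_comm]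

theorem onlyTrivialTPS_of_halfDer (hE : OnlyTrivialHalfDer E) (hna : ∃ x y : E, ⁅x, y⁆ ≠ 0) :
    OnlyTrivialTPS E := by
  rintro m ⟨hcomm, -, hcompat⟩
  have key : ∀ z, ∃ c : ℂ, ∀ x, m z x = c • x := by
    intro z
    apply hE
    intro x y
    rw [← hcompat x y z, smul_smul]
    norm_num
  choose c hc using key
  have comm : ∀ x z, c z • x = c x • z := by
    intro x z
    rw [← hc, ← hc, hcomm]
  intro x y
  by_contra hne
  have hcx : c x ≠ 0 := by
    intro h0
    rw [hc, h0, zero_smul] at hne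
    exact hne rfl
  have hz : ∀ z, z = ((c x)⁻¹ * c z) • x := by
    intro z
    rw [mul_smul, comm x z, smul_smul, inv_mul_cancel₀ hcx, one_smul]
  obtain ⟨a, b, hab⟩ := hna
  apply hab
  rw [hz a, hz b, smul_lie, lie_smul, lie_self, smul_zero, smul_zero]

theorem rigid_TPS (hc : IsCentreless L) (hL : OnlyTrivialHalfDer L) (he : IsCentralExt ω e)
    (hω : ¬ IsCoboundary ω) (hp : IsPerfectAlg L) : OnlyTrivialTPS E := by
  apply onlyTrivialTPS_of_halfDer (rigid_halfDer hc hL he hω hp)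
  by_contra hab
  push Not at hab
  refine hω ⟨0, fun x y => ?_⟩
  have h1 := he (e.symm (x, 0)) (e.symm (y, 0))
  rw [hab, map_zero] at h1
  simp only [LinearEquiv.apply_symm_apply] at h1
  exact (congrArg Prod.snd h1).symm

theorem criterion (hc : IsCentreless L) (hL : OnlyTrivialHalfDer L) (he : IsCentralExt ω e)
    (hω : ¬ IsCoboundary ω) :
    (OnlyTrivialHalfDer E ↔ IsPerfectAlg L) ∧ (OnlyTrivialTPS E ↔ IsPerfectAlg L) := by
  refine ⟨⟨fun h => ?_, rigid_halfDer hc hL he hω⟩, ⟨fun h => ?_, rigid_TPS hc hL he hω⟩⟩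
  · by_contra hp
    exact nontrivial_halfDer he hp h
  · by_contra hp
    exact nontrivial_TPS he hp h

end

end Pool.Agent.Lib.MP_d69fce_al
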