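import Mathlib

namespace Pool.Agent.Lib.MP_d69fce_al

/-- The bilinear product `m` is a transposed Poisson structure on the complex Lie algebra `L`. -/
def IsTPS {L : Type} [LieRing L] [LieAlgebra ℂ L] (m : L →ₗ[ℂ] L →ₗ[ℂ] L) : Prop :=
  (∀ x y, m x y = m y x) ∧ (∀ x y z, m (m x y) z = m x (m y z)) ∧
    ∀ x y z, (2 : ℂ) • m z ⁅x, y⁆ = ⁅m z x, y⁆ + ⁅x, m z y⁆

/-- Every transposed Poisson structure on `L` is trivial. -/
def OnlyTrivialTPS (L : Type) [LieRing L] [LieAlgebra ℂ L] : Prop :=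
  ∀ m : L →ₗ[ℂ] L →ₗ[ℂ] L, IsTPS m → ∀ x y, m x y = 0

/-- The half-derivations of a complex Lie algebra. -/
def IsHalfDerivation {L : Type} [LieRing L] [LieAlgebra ℂ L] (φ : L →ₗ[ℂ] L) : Prop :=
  ∀ x y, φ ⁅x, y⁆ = (1 / 2 : ℂ) • (⁅φ x, y⁆ + ⁅x, φ y⁆)

/-- Every half-derivation of `L` is a scalar multiple of the identity. -/
def OnlyTrivialHalfDer (L : Type) [LieRing L] [LieAlgebra ℂ L] : Prop :=
  ∀ φ : L →ₗ[ℂ] L, IsHalfDerivation φ → ∃ c : ℂ, ∀ x, φ x = c • x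

/-- The bilinear form `ω` on `L` is a coboundary. -/
def IsCoboundary {L : Type} [LieRing L] [LieAlgebra ℂ L] (ω : L →ₗ[ℂ] L →ₗ[ℂ] ℂ) : Prop :=
  ∃ f : L →ₗ[ℂ] ℂ, ∀ x y, ω x y = f ⁅x, y⁆

/-- The linear isomorphism `e` identifies the Lie algebra `E` with the one-dimensional central
extension `L ⊕ ℂ c`, with bracket `[x + a c, y + b c] = [x, y] + ω(x, y) c`. -/
def IsCentralExt {L E : Type} [LieRing L] [LieAlgebra ℂ L] [LieRing E] [LieAlgebra ℂ E]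
    (ω : L →ₗ[ℂ] L →ₗ[ℂ] ℂ) (e : E ≃ₗ[ℂ] L × ℂ) : Prop :=
  ∀ u v : E, e ⁅u, v⁆ = (⁅(e u).1, (e v).1⁆, ω (e u).1 (e v).1)

end Pool.Agent.Lib.MP_d69fce_al
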