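import Pool.Agent.Lib.MP_d69fce_al.Crit

/-! # The Lie algebras `gl_n ⋉ (V ⊕ V*)` -/

open scoped Matrix

namespace Pool.Agent.Lib.MP_d69fce_al

/-- The underlying space of `gl_n ⋉ (V ⊕ V*)`, `V = ℂ^n` (columns), `V*` (rows). -/
def GV (n : ℕ) : Type := Matrix (Fin n) (Fin n) ℂ × (Fin n → ℂ) × (Fin n → ℂ)

namespace GV

variable {n : ℕ}

noncomputable instance : AddCommGroup (GV n) :=
  inferInstanceAs (AddCommGroup (Matrix (Fin n) (Fin n) ℂ × (Fin n → ℂ) × (Fin n → ℂ)))

noncomputable instance : Module ℂ (GV n) :=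
  inferInstanceAs (Module ℂ (Matrix (Fin n) (Fin n) ℂ × (Fin n → ℂ) × (Fin n → ℂ)))

/-- The element with given components. -/
def mk (A : Matrix (Fin n) (Fin n) ℂ) (v w : Fin n → ℂ) : GV n := (A, v, w)

/-- The component in `gl_n`. -/
def a (x : GV n) : Matrix (Fin n) (Fin n) ℂ := x.1

/-- The component in `V`. -/
def b (x : GV n) : Fin n → ℂ := x.2.1

/-- The component in `V*`. -/
def c (x : GV n) : Fin n → ℂ := x.2.2

theorem ext' {x y : GV n} (h1 : a x = a y) (h2 : b x = b y) (h3 : c x = c y) : x = y :=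
  Prod.ext h1 (Prod.ext h2 h3)

theorem mk_eq (x : GV n) : mk (a x) (b x) (c x) = x := rfl

@[simp] theorem a_mk (A : Matrix (Fin n) (Fin n) ℂ) (v w : Fin n → ℂ) : a (mk A v w) = A := rfl
@[simp] theorem b_mk (A : Matrix (Fin n) (Fin n) ℂ) (v w : Fin n → ℂ) : b (mk A v w) = v := rfl
@[simp] theorem c_mk (A : Matrix (Fin n) (Fin n) ℂ) (v w : Fin n → ℂ) : c (mk A v w) = w := rfl
@[simp] theorem a_add (x y : GV n) : a (x + y) = a x + a y := rfl
@[simp] theorem b_add (x y : GV n) : b (x + y) = b x + b y := rfl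
@[simp] theorem c_add (x y : GV n) : c (x + y) = c x + c y := rfl
@[simp] theorem a_smul (t : ℂ) (x : GV n) : a (t • x) = t • a x := rfl
@[simp] theorem b_smul (t : ℂ) (x : GV n) : b (t • x) = t • b x := rfl
@[simp] theorem c_smul (t : ℂ) (x : GV n) : c (t • x) = t • c x := rfl
@[simp] theorem a_neg (x : GV n) : a (-x) = -a x := rfl
@[simp] theorem b_neg (x : GV n) : b (-x) = -b x := rfl
@[simp] theorem c_neg (x : GV n) : c (-x) = -c x := rfl
@[simp] theorem a_zero : a (0 : GV n) = 0 := rfl
@[simp] theorem b_zero : b (0 : GV n) = 0 := rfl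
@[simp] theorem c_zero : c (0 : GV n) = 0 := rfl

/-- The bracket. -/
noncomputable def br (x y : GV n) : GV n :=
  mk (a x * a y - a y * a x) (a x *ᵥ b y - a y *ᵥ b x) (c x ᵥ* a y - c y ᵥ* a x)

@[simp] theorem a_br (x y : GV n) : a (br x y) = a x * a y - a y * a x := rfl
@[simp] theorem b_br (x y : GV n) : b (br x y) = a x *ᵥ b y - a y *ᵥ b x := rfl
@[simp] theorem c_br (x y : GV n) : c (br x y) = c x ᵥ* a y - c y ᵥ* a x := rfl

noncomputable instance : LieRing (GV n) where
  bracket := br
  add_lie x y z := by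
    change br (x + y) z = br x z + br y z
    apply ext'
    · simp only [a_br, a_add, add_mul, mul_add]
      abel
    · simp only [b_br, b_add, a_add, Matrix.add_mulVec, Matrix.mulVec_add]
      abel
    · simp only [c_br, c_add, a_add, Matrix.add_vecMul, Matrix.vecMul_add]
      abel
  lie_add x y z := by
    change br x (y + z) = br x y + br x z
    apply ext'
    · simp only [a_br, a_add, add_mul, mul_add]
      abel
    · simp only [b_br, b_add, a_add, Matrix.add_mulVec, Matrix.mulVec_add]
      abel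
    · simp only [c_br, c_add, a_add, Matrix.add_vecMul, Matrix.vecMul_add]
      abel
  lie_self x := by
    change br x x = 0
    apply ext'
    · simp
    · simp
    · simp
  leibniz_lie x y z := by
    change br x (br y z) = br (br x y) z + br y (br x z)
    apply ext'
    · simp only [a_br, a_add, mul_sub, sub_mul, mul_assoc]
      abel
    · simp only [b_br, b_add, a_br, Matrix.mulVec_sub, Matrix.sub_mulVec, Matrix.mulVec_mulVec]
      abel
    · simp only [c_br, c_add, a_br, Matrix.vecMul_sub, Matrix.sub_vecMul, Matrix.vecMul_vecMul]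
      abel

theorem lie_eq (x y : GV n) : ⁅x, y⁆ = br x y := rfl

noncomputable instance : LieAlgebra ℂ (GV n) where
  lie_smul t x y := by
    change br x (t • y) = t • br x y
    apply ext'
    · simp only [a_br, a_smul, mul_smul_comm, smul_mul_assoc, smul_sub]
    · simp only [b_br, b_smul, a_smul, Matrix.mulVec_smul, Matrix.smul_mulVec, smul_sub]
    · simp only [c_br, c_smul, a_smul, Matrix.vecMul_smul, Matrix.smul_vecMul, smul_sub]

theorem centreless : IsCentreless (GV n) := by
  intro z hz
  have h1 := hz (mk 1 0 0)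
  rw [lie_eq] at h1
  have hb : b z = 0 := by
    have h2 := congrArg b h1
    simpa using h2
  have hc : c z = 0 := by
    have h2 := congrArg c h1
    simpa using h2
  have ha : a z = 0 := by
    ext i j
    have h2 := congrArg b (hz (mk 0 (Pi.single j 1) 0))
    rw [lie_eq] at h2
    have h3 := congrFun h2 i
    simpa using h3
  exact ext' ha hb hc

/-- The trace of the component in `gl_n`. -/
noncomputable def tr : GV n →ₗ[ℂ] ℂ where
  toFun x := (a x).trace
  map_add' x y := by simp
  map_smul' t x := by simp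

theorem tr_lie (x y : GV n) : tr ⁅x, y⁆ = 0 := by
  change (a (br x y)).trace = 0
  rw [a_br, Matrix.trace_sub, Matrix.trace_mul_comm, sub_self]

theorem not_perfect (hn : 1 ≤ n) : ¬ IsPerfectAlg (GV n) := by
  intro h
  have h1 := functional_zero h (g := tr) tr_lie
  have h2 : tr (mk (1 : Matrix (Fin n) (Fin n) ℂ) 0 0) = 0 := by rw [h1]; rfl
  change (1 : Matrix (Fin n) (Fin n) ℂ).trace = 0 at h2
  rw [Matrix.trace_one, Fintype.card_fin] at h2
  have h3 : (n : ℂ) ≠ 0 := Nat.cast_ne_zero.2 (by omega)
  exact h3 h2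

theorem finrank_eq : Module.finrank ℂ (GV n) = n ^ 2 + 2 * n := by
  have h : Module.finrank ℂ (Matrix (Fin n) (Fin n) ℂ × (Fin n → ℂ) × (Fin n → ℂ)) =
      n ^ 2 + 2 * n := by
    rw [Module.finrank_prod, Module.finrank_prod, Module.finrank_matrix, Module.finrank_fin_fun,
      Module.finrank_self, Fintype.card_fin]
    ring
  exact h

end GV

end Pool.Agent.Lib.MP_d69fce_al
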