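import Pool.Agent.Lib.MP_d69fce_al.FamRigid

/-! # The Heisenberg type central extension of `gl_n ⋉ (V ⊕ V*)` -/

open scoped Matrix
open LieModule.Cohomology

namespace Pool.Agent.Lib.MP_d69fce_al

namespace GV

variable {n : ℕ}

/-- The pairing of `V` with `V*`. -/
noncomputable def pair (x y : GV n) : ℂ := c x ⬝ᵥ b y - c y ⬝ᵥ b x

theorem pair_add_left (x y z : GV n) : pair (x + y) z = pair x z + pair y z := by
  simp only [pair, b_add, c_add, add_dotProduct, dotProduct_add]
  ring

theorem pair_add_right (x y z : GV n) : pair x (y + z) = pair x y + pair x z := by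
  simp only [pair, b_add, c_add, add_dotProduct, dotProduct_add]
  ring

theorem pair_smul_left (t : ℂ) (x y : GV n) : pair (t • x) y = t * pair x y := by
  simp only [pair, b_smul, c_smul, smul_dotProduct, dotProduct_smul, smul_eq_mul]
  ring

theorem pair_smul_right (t : ℂ) (x y : GV n) : pair x (t • y) = t * pair x y := by
  simp only [pair, b_smul, c_smul, smul_dotProduct, dotProduct_smul, smul_eq_mul]
  ring

/-- The pairing as a bilinear form. -/
noncomputable def w (n : ℕ) : GV n →ₗ[ℂ] GV n →ₗ[ℂ] ℂ :=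
  LinearMap.mk₂ ℂ pair pair_add_left (fun t x y => by rw [pair_smul_left, smul_eq_mul])
    pair_add_right (fun t x y => by rw [pair_smul_right, smul_eq_mul])

theorem w_apply (x y : GV n) : w n x y = pair x y := rfl

/-- The pairing with values in the trivial module. -/
noncomputable def form (n : ℕ) : GV n →ₗ[ℂ] GV n →ₗ[ℂ] TrivialLieModule ℂ (GV n) ℂ :=
  LinearMap.mk₂ ℂ (fun x y => (TrivialLieModule.equiv ℂ (GV n) ℂ).symm (pair x y))
    (by intro x y z; rw [← map_add, pair_add_left])
    (by intro t x y; rw [← map_smul, pair_smul_left, smul_eq_mul])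
    (by intro x y z; rw [← map_add, pair_add_right])
    (by intro t x y; rw [← map_smul, pair_smul_right, smul_eq_mul])

theorem form_apply (x y : GV n) :
    form n x y = (TrivialLieModule.equiv ℂ (GV n) ℂ).symm (pair x y) := rfl

noncomputable def cochain (n : ℕ) : twoCochain ℂ (GV n) (TrivialLieModule ℂ (GV n) ℂ) :=
  ⟨form n, by
    intro x
    rw [form_apply, ← map_zero (TrivialLieModule.equiv ℂ (GV n) ℂ).symm]
    congr 1
    simp [pair]⟩

theorem cochain_apply (x y : GV n) :
    cochain n x y = (TrivialLieModule.equiv ℂ (GV n) ℂ).symm (pair x y) := rfl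

/-- The 2-cocycle pairing `V` with `V*`. -/
noncomputable def omega (n : ℕ) : twoCocycle ℂ (GV n) (TrivialLieModule ℂ (GV n) ℂ) :=
  ⟨cochain n, by
    rw [mem_twoCocycle_iff_of_trivial]
    intro x y z
    rw [cochain_apply, cochain_apply, cochain_apply, ← map_add]
    congr 1
    simp only [lie_eq, pair, b_br, c_br, sub_dotProduct, dotProduct_sub,
      Matrix.dotProduct_mulVec]
    ring⟩

/-- The central extension. -/
abbrev Ext (n : ℕ) : Type := LieAlgebra.ofTwoCocycle (omega n)

/-- The linear isomorphism with `GV n × ℂ`. -/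
noncomputable def eqv (n : ℕ) : Ext n ≃ₗ[ℂ] GV n × ℂ where
  toFun x := (((LieAlgebra.ofProd (omega n)).symm x).1,
    TrivialLieModule.equiv ℂ (GV n) ℂ ((LieAlgebra.ofProd (omega n)).symm x).2)
  map_add' x y := by simp
  map_smul' a x := by simp
  invFun z := LieAlgebra.ofProd (omega n) (z.1, (TrivialLieModule.equiv ℂ (GV n) ℂ).symm z.2)
  left_inv x := by simp
  right_inv z := by simp

theorem eqv_isCentralExt (n : ℕ) : IsCentralExt (w n) (eqv n) := by
  intro u v
  rw [LieAlgebra.bracket_ofTwoCocycle]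
  refine Prod.ext ?_ ?_
  · simp [eqv]
  · change TrivialLieModule.equiv ℂ (GV n) ℂ (_ + _ - _) = _
    simp only [LieModule.IsTrivial.trivial, sub_zero, add_zero]
    rfl

theorem w_not_coboundary (hn : 1 ≤ n) : ¬ IsCoboundary (w n) := by
  rintro ⟨f, hf⟩
  let i : Fin n := ⟨0, by omega⟩
  have h := hf (mk 0 (Pi.single i 1) 0) (mk 0 0 (Pi.single i 1))
  have hb : ⁅mk (0 : Matrix (Fin n) (Fin n) ℂ) (Pi.single i 1) 0, mk 0 0 (Pi.single i 1)⁆ =
      (0 : GV n) := by
    rw [lie_eq]
    apply ext'
    · simp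
    · simp [Matrix.col]
      rfl
    · simp
  rw [hb, map_zero, w_apply] at h
  simp [pair] at h

theorem exists_lie_ne (hn : 1 ≤ n) : ∃ x y : GV n, ⁅x, y⁆ ≠ 0 := by
  let i : Fin n := ⟨0, by omega⟩
  refine ⟨mk 1 0 0, mk 0 (Pi.single i 1) 0, fun h => ?_⟩
  have h1 := congrArg b h
  have h2 := congrFun h1 i
  rw [lie_eq] at h2
  simp at h2

end GV

end Pool.Agent.Lib.MP_d69fce_al
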