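import Pool.Agent.Lib.MP_d69fce_al.Fam

/-! # `gl_n ⋉ (V ⊕ V*)` has only trivial half-derivations for `n ≥ 2` -/

open scoped Matrix

namespace Pool.Agent.Lib.MP_d69fce_al

namespace GV

variable {n : ℕ}

theorem half_eq {φ : GV n →ₗ[ℂ] GV n} (hφ : IsHalfDerivation φ) (x y : GV n) :
    (2 : ℂ) • φ (br x y) = br (φ x) y + br x (φ y) := by
  have h := hφ x y
  rw [lie_eq, lie_eq, lie_eq] at h
  rw [h, smul_smul]
  norm_num

theorem half_gl {φ : GV n →ₗ[ℂ] GV n} (hφ : IsHalfDerivation φ) (A : Matrix (Fin n) (Fin n) ℂ) :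
    a (φ (mk 1 0 0)) * A = A * a (φ (mk 1 0 0)) ∧
      b (φ (mk A 0 0)) = A *ᵥ b (φ (mk 1 0 0)) ∧
      c (φ (mk A 0 0)) = c (φ (mk 1 0 0)) ᵥ* A := by
  have h := half_eq hφ (mk 1 0 0) (mk A 0 0)
  have h0 : br (mk 1 0 0) (mk A 0 0) = (0 : GV n) := by
    apply ext'
    · simp
    · simp
    · simp
  rw [h0, map_zero, smul_zero] at h
  have ha := congrArg a h
  have hb := congrArg b h
  have hc := congrArg c h
  simp only [a_zero, a_add, a_br, a_mk, one_mul, mul_one, sub_self, add_zero] at ha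
  simp only [b_zero, b_add, b_br, a_mk, b_mk, Matrix.mulVec_zero, Matrix.one_mulVec, zero_sub,
    sub_zero] at hb
  simp only [c_zero, c_add, c_br, a_mk, c_mk, Matrix.zero_vecMul, Matrix.vecMul_one, zero_sub,
    sub_zero] at hc
  refine ⟨(sub_eq_zero.1 ha.symm), ?_, ?_⟩
  · rw [eq_comm, neg_add_eq_zero] at hb
    exact hb.symm
  · rw [eq_comm, add_neg_eq_zero] at hc
    exact hc.symm

theorem half_V {φ : GV n →ₗ[ℂ] GV n} (hφ : IsHalfDerivation φ) (v : Fin n → ℂ) :
    φ (mk 0 v 0) = mk 0 (a (φ (mk 1 0 0)) *ᵥ v) 0 := by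
  have h := half_eq hφ (mk 1 0 0) (mk 0 v 0)
  have h0 : br (mk 1 0 0) (mk 0 v 0) = mk (0 : Matrix (Fin n) (Fin n) ℂ) v 0 := by
    apply ext'
    · simp
    · simp
    · simp
  rw [h0] at h
  have ha := congrArg a h
  have hb := congrArg b h
  have hc := congrArg c h
  simp only [a_smul, a_add, a_br, a_mk, one_mul, mul_one, sub_self, add_zero, mul_zero,
    zero_mul] at ha
  simp only [b_smul, b_add, b_br, a_mk, b_mk, Matrix.mulVec_zero, Matrix.zero_mulVec,
    Matrix.one_mulVec, sub_zero] at hb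
  simp only [c_smul, c_add, c_br, a_mk, c_mk, Matrix.zero_vecMul, Matrix.vecMul_zero,
    Matrix.vecMul_one, zero_sub, sub_self, zero_add] at hc
  apply ext'
  · rw [a_mk]
    rcases smul_eq_zero.1 ha with h1 | h1
    · norm_num at h1
    · exact h1
  · rw [b_mk]
    rw [two_smul] at hb
    exact add_right_cancel hb
  · rw [c_mk]
    have h1 : (3 : ℂ) • c (φ (mk 0 v 0)) = 0 := by
      rw [show (3 : ℂ) = 2 + 1 by norm_num, add_smul, hc, one_smul, neg_add_cancel]
    rcases smul_eq_zero.1 h1 with h2 | h2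
    · norm_num at h2
    · exact h2

theorem half_W {φ : GV n →ₗ[ℂ] GV n} (hφ : IsHalfDerivation φ) (w : Fin n → ℂ) :
    φ (mk 0 0 w) = mk 0 0 (w ᵥ* a (φ (mk 1 0 0))) := by
  have h := half_eq hφ (mk 1 0 0) (mk 0 0 w)
  have h0 : br (mk 1 0 0) (mk 0 0 w) = (-1 : ℂ) • mk (0 : Matrix (Fin n) (Fin n) ℂ) 0 w := by
    apply ext'
    · simp
    · simp
    · simp
  rw [h0, map_smul, smul_smul] at h
  have ha := congrArg a h
  have hb := congrArg b h
  have hc := congrArg c h
  simp only [a_smul, a_add, a_br, a_mk, one_mul, mul_one, sub_self, add_zero, mul_zero,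
    zero_mul] at ha
  simp only [b_smul, b_add, b_br, a_mk, b_mk, Matrix.mulVec_zero, Matrix.zero_mulVec,
    Matrix.one_mulVec, sub_zero, sub_self, zero_add] at hb
  simp only [c_smul, c_add, c_br, a_mk, c_mk, Matrix.zero_vecMul, Matrix.vecMul_zero,
    Matrix.vecMul_one, zero_sub] at hc
  apply ext'
  · rw [a_mk]
    rcases smul_eq_zero.1 ha with h1 | h1
    · norm_num at h1
    · exact h1
  · rw [b_mk]
    have h1 : (3 : ℂ) • b (φ (mk 0 0 w)) = 0 := by
      have h2 : (3 : ℂ) • b (φ (mk 0 0 w)) =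
          -((2 * -1 : ℂ) • b (φ (mk 0 0 w)) - b (φ (mk 0 0 w))) := by
        module
      rw [h2, hb, sub_self, neg_zero]
    rcases smul_eq_zero.1 h1 with h2 | h2
    · norm_num at h2
    · exact h2
  · rw [c_mk]
    have h2 : c (φ (mk 0 0 w)) =
        -((2 * -1 : ℂ) • c (φ (mk 0 0 w)) + c (φ (mk 0 0 w))) := by
      module
    rw [h2, hc]
    abel

theorem rigid (hn : 2 ≤ n) : OnlyTrivialHalfDer (GV n) := by
  intro φ hφ
  have hgl := half_gl hφ
  obtain ⟨α, hα⟩ : a (φ (mk 1 0 0)) ∈ Set.range (Matrix.scalar (Fin n)) :=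
    Matrix.mem_range_scalar_iff_commute_single'.2 fun i j => (hgl _).1.symm
  have hα' : a (φ (mk 1 0 0)) = α • (1 : Matrix (Fin n) (Fin n) ℂ) := by
    rw [← hα, Matrix.scalar_apply, Matrix.smul_one_eq_diagonal]
  have hV : ∀ v, φ (mk 0 v 0) = mk 0 (α • v) 0 := by
    intro v
    rw [half_V hφ, hα', Matrix.smul_mulVec, Matrix.one_mulVec]
  have hW : ∀ w, φ (mk 0 0 w) = mk 0 0 (α • w) := by
    intro w
    rw [half_W hφ, hα', Matrix.vecMul_smul, Matrix.vecMul_one]
  have hne : ∀ i : Fin n, ∃ j, i ≠ j := by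
    intro i
    have : Nontrivial (Fin n) := Fin.nontrivial_iff_two_le.2 hn
    obtain ⟨j, hj⟩ := exists_ne i
    exact ⟨j, hj.symm⟩
  -- the component in `gl_n`
  have hA : ∀ A, a (φ (mk A 0 0)) = α • A := by
    intro A
    have h1 : ∀ v, a (φ (mk A 0 0)) *ᵥ v = (α • A) *ᵥ v := by
      intro v
      have h := half_eq hφ (mk A 0 0) (mk 0 v 0)
      have h0 : br (mk A 0 0) (mk 0 v 0) = mk (0 : Matrix (Fin n) (Fin n) ℂ) (A *ᵥ v) 0 := by
        apply ext'
        · simp
        · simp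
        · simp
      rw [h0, hV, hV] at h
      have hb := congrArg b h
      simp only [b_smul, b_add, b_br, a_mk, b_mk, Matrix.mulVec_zero, Matrix.zero_mulVec,
        sub_zero, Matrix.mulVec_smul] at hb
      rw [two_smul] at hb
      rw [Matrix.smul_mulVec]
      exact (add_right_cancel hb).symm
    ext i j
    have h2 := congrFun (h1 (Pi.single j 1)) i
    simpa using h2
  have hbr : ∀ A B : Matrix (Fin n) (Fin n) ℂ,
      br (mk A 0 0) (mk B 0 0) = mk (A * B - B * A) 0 0 := by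
    intro A B
    apply ext'
    · simp
    · simp
    · simp
  have hv0 : b (φ (mk 1 0 0)) = 0 := by
    ext i
    obtain ⟨j, hij⟩ := hne i
    have h := half_eq hφ (mk (Matrix.single i j 1) 0 0) (mk (Matrix.single j i 1) 0 0)
    rw [hbr] at h
    have hb := congrArg b h
    rw [b_smul, (hgl (_ - _)).2.1, b_add, b_br, b_br, (hgl (Matrix.single i j 1)).2.1,
      (hgl (Matrix.single j i 1)).2.1] at hb
    simp only [a_mk, b_mk, Matrix.mulVec_zero, Matrix.mulVec_mulVec, Matrix.sub_mulVec,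
      zero_sub, sub_zero, Matrix.single_mul_single_same, mul_one] at hb
    have h2 := congrFun hb i
    have h3 : (Matrix.single i i (1 : ℂ) *ᵥ b (φ (mk 1 0 0))) i = b (φ (mk 1 0 0)) i := by
      simp [Matrix.single_mulVec]
    have h4 : (Matrix.single j j (1 : ℂ) *ᵥ b (φ (mk 1 0 0))) i = 0 := by
      simp [Matrix.single_mulVec, hij]
    simp only [Pi.smul_apply, Pi.sub_apply, Pi.add_apply, Pi.neg_apply, h3, h4, smul_eq_mul] at h2
    rw [Pi.zero_apply]
    linear_combination h2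
  have hw0 : c (φ (mk 1 0 0)) = 0 := by
    ext i
    obtain ⟨j, hij⟩ := hne i
    have h := half_eq hφ (mk (Matrix.single i j 1) 0 0) (mk (Matrix.single j i 1) 0 0)
    rw [hbr] at h
    have hb := congrArg c h
    rw [c_smul, (hgl (_ - _)).2.2, c_add, c_br, c_br, (hgl (Matrix.single i j 1)).2.2,
      (hgl (Matrix.single j i 1)).2.2] at hb
    simp only [a_mk, c_mk, Matrix.zero_vecMul, Matrix.vecMul_vecMul, Matrix.vecMul_sub,
      zero_sub, sub_zero, Matrix.single_mul_single_same, mul_one] at hb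
    have h2 := congrFun hb i
    have h3 : (c (φ (mk 1 0 0)) ᵥ* Matrix.single i i (1 : ℂ)) i = c (φ (mk 1 0 0)) i := by
      simp [Matrix.vecMul, dotProduct, Matrix.single_apply]
    have h4 : (c (φ (mk 1 0 0)) ᵥ* Matrix.single j j (1 : ℂ)) i = 0 := by
      simp [Matrix.vecMul, dotProduct, Matrix.single_apply, hij.symm]
    simp only [Pi.smul_apply, Pi.sub_apply, Pi.add_apply, Pi.neg_apply, h3, h4, smul_eq_mul] at h2
    rw [Pi.zero_apply]
    linear_combination h2
  refine ⟨α, fun x => ?_⟩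
  have hx : x = mk (a x) 0 0 + mk 0 (b x) 0 + mk 0 0 (c x) := by
    apply ext'
    · simp
    · simp
    · simp
  have h1 : φ (mk (a x) 0 0) = mk (α • a x) 0 0 := by
    apply ext'
    · rw [hA, a_mk]
    · rw [(hgl _).2.1, hv0, Matrix.mulVec_zero, b_mk]
    · rw [(hgl _).2.2, hw0, Matrix.zero_vecMul, c_mk]
  conv_lhs => rw [hx]
  rw [map_add, map_add, h1, hV, hW]
  apply ext'
  · simp
  · simp
  · simp

end GV

end Pool.Agent.Lib.MP_d69fce_al
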