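import Pool.Agent.Lib.MP_d69fce_al.Basic

namespace Pool.Agent.Lib.MP_d69fce_al

/-- The underlying space of the 8-dimensional Lie algebra `(sl₂ ⊕ ℂ d) ⋉ (V₊ ⊕ V₋)`. -/
def L8 : Type := Fin 8 → ℂ

noncomputable instance : AddCommGroup L8 := inferInstanceAs (AddCommGroup (Fin 8 → ℂ))
noncomputable instance : Module ℂ L8 := inferInstanceAs (Module ℂ (Fin 8 → ℂ))

@[simp] theorem L8.add_apply (x y : L8) (i : Fin 8) : (x + y) i = x i + y i := rfl
@[simp] theorem L8.sub_apply (x y : L8) (i : Fin 8) : (x - y) i = x i - y i := rfl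
@[simp] theorem L8.neg_apply (x : L8) (i : Fin 8) : (-x) i = -x i := rfl
@[simp] theorem L8.zero_apply (i : Fin 8) : (0 : L8) i = 0 := rfl
@[simp] theorem L8.smul_apply (a : ℂ) (x : L8) (i : Fin 8) : (a • x) i = a * x i := rfl

/-- The bracket. -/
noncomputable def L8.br (x y : L8) : L8 :=
  ![x 1 * y 2 - x 2 * y 1,
    2 * (x 0 * y 1 - x 1 * y 0),
    2 * (x 2 * y 0 - x 0 * y 2),
    0,
    x 0 * y 4 + x 1 * y 5 + x 3 * y 4 - (y 0 * x 4 + y 1 * x 5 + y 3 * x 4),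
    x 2 * y 4 - x 0 * y 5 + x 3 * y 5 - (y 2 * x 4 - y 0 * x 5 + y 3 * x 5),
    x 0 * y 6 + x 1 * y 7 - x 3 * y 6 - (y 0 * x 6 + y 1 * x 7 - y 3 * x 6),
    x 2 * y 6 - x 0 * y 7 - x 3 * y 7 - (y 2 * x 6 - y 0 * x 7 - y 3 * x 7)]

theorem L8.ext' {x y : L8} (h0 : x 0 = y 0) (h1 : x 1 = y 1) (h2 : x 2 = y 2) (h3 : x 3 = y 3)
    (h4 : x 4 = y 4) (h5 : x 5 = y 5) (h6 : x 6 = y 6) (h7 : x 7 = y 7) : x = y := by
  funext i
  fin_cases i
  · exact h0
  · exact h1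
  · exact h2
  · exact h3
  · exact h4
  · exact h5
  · exact h6
  · exact h7

theorem L8.br0 (x y : L8) : L8.br x y 0 = x 1 * y 2 - x 2 * y 1 := rfl
theorem L8.br1 (x y : L8) : L8.br x y 1 = 2 * (x 0 * y 1 - x 1 * y 0) := rfl
theorem L8.br2 (x y : L8) : L8.br x y 2 = 2 * (x 2 * y 0 - x 0 * y 2) := rfl
theorem L8.br3 (x y : L8) : L8.br x y 3 = 0 := rfl
theorem L8.br4 (x y : L8) : L8.br x y 4 =
  x 0 * y 4 + x 1 * y 5 + x 3 * y 4 - (y 0 * x 4 + y 1 * x 5 + y 3 * x 4) := rfl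
theorem L8.br5 (x y : L8) : L8.br x y 5 =
  x 2 * y 4 - x 0 * y 5 + x 3 * y 5 - (y 2 * x 4 - y 0 * x 5 + y 3 * x 5) := rfl
theorem L8.br6 (x y : L8) : L8.br x y 6 =
  x 0 * y 6 + x 1 * y 7 - x 3 * y 6 - (y 0 * x 6 + y 1 * x 7 - y 3 * x 6) := rfl
theorem L8.br7 (x y : L8) : L8.br x y 7 =
  x 2 * y 6 - x 0 * y 7 - x 3 * y 7 - (y 2 * x 6 - y 0 * x 7 - y 3 * x 7) := rfl

noncomputable instance : LieRing L8 where
  bracket := L8.br
  add_lie x y z := by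
    change L8.br (x + y) z = L8.br x z + L8.br y z
    apply L8.ext' <;> simp only [L8.br0, L8.br1, L8.br2, L8.br3, L8.br4, L8.br5, L8.br6, L8.br7,
      L8.add_apply] <;> ring
  lie_add x y z := by
    change L8.br x (y + z) = L8.br x y + L8.br x z
    apply L8.ext' <;> simp only [L8.br0, L8.br1, L8.br2, L8.br3, L8.br4, L8.br5, L8.br6, L8.br7,
      L8.add_apply] <;> ring
  lie_self x := by
    change L8.br x x = 0
    apply L8.ext' <;> simp only [L8.br0, L8.br1, L8.br2, L8.br3, L8.br4, L8.br5, L8.br6, L8.br7,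
      L8.zero_apply] <;> ring
  leibniz_lie x y z := by
    change L8.br x (L8.br y z) = L8.br (L8.br x y) z + L8.br y (L8.br x z)
    apply L8.ext' <;> simp only [L8.br0, L8.br1, L8.br2, L8.br3, L8.br4, L8.br5, L8.br6, L8.br7,
      L8.add_apply] <;> ring

noncomputable instance : LieAlgebra ℂ L8 where
  lie_smul t x y := by
    change L8.br x (t • y) = t • L8.br x y
    apply L8.ext' <;> simp only [L8.br0, L8.br1, L8.br2, L8.br3, L8.br4, L8.br5, L8.br6, L8.br7,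
      L8.smul_apply] <;> ring

@[simp] theorem L8.lie_eq (x y : L8) : ⁅x, y⁆ = L8.br x y := rfl

end Pool.Agent.Lib.MP_d69fce_al
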