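import Pool.Agent.Lib.MP_d69fce_al.Rigid

namespace Pool.Agent.Lib.MP_d69fce_al

open L8 LieModule.Cohomology

theorem L8_onlyTrivialHalfDer : OnlyTrivialHalfDer L8 := by
  intro φ h
  obtain ⟨c, hc⟩ := L8_rigid φ h
  exact ⟨c, fun x => by rw [hc]; rfl⟩

theorem L8_onlyTrivialTPS : OnlyTrivialTPS L8 := by
  intro m hm
  obtain ⟨hcomm, -, hcompat⟩ := hm
  have key : ∀ z, ∃ c : ℂ, m z = c • LinearMap.id := by
    intro z
    apply L8_rigid
    intro x y
    have h := hcompat x y z
    rw [← h, smul_smul]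
    norm_num
  choose c hc using key
  have comm : ∀ x z, c z • x = c x • z := by
    intro x z
    have h := hcomm z x
    rw [hc, hc] at h
    simpa using h
  have h0 : c (e 0) = 0 := by
    have := congrFun (comm (e 1) (e 0)) 1
    simpa [e_apply] using this
  have h1 : ∀ z, c z = 0 := by
    intro z
    have := congrFun (comm (e 0) z) 0
    simpa [e_apply, h0] using this
  intro x y
  rw [hc, h1]
  simp

/-- The bilinear form pairing `V₊` with `V₋`. -/
noncomputable def form8 : L8 →ₗ[ℂ] L8 →ₗ[ℂ] TrivialLieModule ℂ L8 ℂ :=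
  LinearMap.mk₂ ℂ (fun x y => (TrivialLieModule.equiv ℂ L8 ℂ).symm
      (x 4 * y 7 - x 5 * y 6 - (y 4 * x 7 - y 5 * x 6)))
    (by intro x y z; rw [← map_add]; congr 1; simp only [L8.add_apply]; ring)
    (by intro a x y; rw [← map_smul]; congr 1; simp only [L8.smul_apply, smul_eq_mul]; ring)
    (by intro x y z; rw [← map_add]; congr 1; simp only [L8.add_apply]; ring)
    (by intro a x y; rw [← map_smul]; congr 1; simp only [L8.smul_apply, smul_eq_mul]; ring)

theorem form8_apply (x y : L8) : form8 x y = (TrivialLieModule.equiv ℂ L8 ℂ).symm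
      (x 4 * y 7 - x 5 * y 6 - (y 4 * x 7 - y 5 * x 6)) := rfl

noncomputable def cochain8 : twoCochain ℂ L8 (TrivialLieModule ℂ L8 ℂ) :=
  ⟨form8, by
    intro x
    rw [form8_apply, ← map_zero (TrivialLieModule.equiv ℂ L8 ℂ).symm]
    congr 1
    ring⟩

theorem cochain8_apply (x y : L8) : cochain8 x y = (TrivialLieModule.equiv ℂ L8 ℂ).symm
      (x 4 * y 7 - x 5 * y 6 - (y 4 * x 7 - y 5 * x 6)) := rfl

/-- The 2-cocycle pairing `V₊` with `V₋`. -/
noncomputable def omega8 : twoCocycle ℂ L8 (TrivialLieModule ℂ L8 ℂ) :=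
  ⟨cochain8, by
    rw [mem_twoCocycle_iff_of_trivial]
    intro x y z
    rw [cochain8_apply, cochain8_apply, cochain8_apply, ← map_add]
    congr 1
    simp only [L8.lie_eq, L8.br4, L8.br5, L8.br6, L8.br7]
    ring⟩

/-- The bilinear form pairing `V₊` with `V₋`, with values in `ℂ`. -/
noncomputable def w8 : L8 →ₗ[ℂ] L8 →ₗ[ℂ] ℂ :=
  LinearMap.mk₂ ℂ (fun x y => x 4 * y 7 - x 5 * y 6 - (y 4 * x 7 - y 5 * x 6))
    (by intro x y z; simp only [L8.add_apply]; ring)
    (by intro a x y; simp only [L8.smul_apply, smul_eq_mul]; ring)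
    (by intro x y z; simp only [L8.add_apply]; ring)
    (by intro a x y; simp only [L8.smul_apply, smul_eq_mul]; ring)

theorem w8_not_coboundary : ¬ IsCoboundary w8 := by
  rintro ⟨f, hf⟩
  have h := hf (e 4) (e 7)
  have hb : ⁅e 4, e 7⁆ = (0 : L8) := by
    rw [L8.lie_eq]
    apply L8.ext' <;> simp [L8.br0, L8.br1, L8.br2, L8.br3, L8.br4, L8.br5, L8.br6, L8.br7,
      e_apply]
  rw [hb, map_zero] at h
  have h2 : e 4 4 * e 7 7 - e 4 5 * e 7 6 - (e 7 4 * e 4 7 - e 7 5 * e 4 6) = 0 := h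
  simp [e_apply] at h2

/-- The central extension of `L8` by `w8`. -/
abbrev E8 : Type := LieAlgebra.ofTwoCocycle omega8

/-- The linear isomorphism with `L8 × ℂ`. -/
noncomputable def equiv8 : E8 ≃ₗ[ℂ] L8 × ℂ where
  toFun x := (((LieAlgebra.ofProd omega8).symm x).1,
    TrivialLieModule.equiv ℂ L8 ℂ ((LieAlgebra.ofProd omega8).symm x).2)
  map_add' x y := by simp
  map_smul' a x := by simp
  invFun z := LieAlgebra.ofProd omega8 (z.1, (TrivialLieModule.equiv ℂ L8 ℂ).symm z.2)
  left_inv x := by simp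
  right_inv z := by simp

theorem equiv8_isCentralExt : IsCentralExt w8 equiv8 := by
  intro u v
  rw [LieAlgebra.bracket_ofTwoCocycle]
  refine Prod.ext ?_ ?_
  · simp [equiv8]
  · change TrivialLieModule.equiv ℂ L8 ℂ (_ + _ - _) = _
    simp only [LieModule.IsTrivial.trivial, sub_zero, add_zero]
    rfl

/-- The functional reading off the coefficient of `d`. -/
noncomputable def f8 : L8 →ₗ[ℂ] ℂ where
  toFun x := x 3
  map_add' _ _ := rfl
  map_smul' _ _ := rfl

theorem f8_lie (x y : L8) : f8 ⁅x, y⁆ = 0 := rfl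

theorem f8_e3 : f8 (e 3) = 1 := by
  change e 3 3 = 1
  simp [e_apply]

theorem finite_L8 : Module.Finite ℂ L8 := inferInstanceAs (Module.Finite ℂ (Fin 8 → ℂ))

end Pool.Agent.Lib.MP_d69fce_al
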