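import Pool.Agent.Lib.MP_d69fce_al.L8

namespace Pool.Agent.Lib.MP_d69fce_al

/-- The standard basis vectors. -/
noncomputable def L8.e (i : Fin 8) : L8 := fun j => if j = i then 1 else 0

theorem L8.e_apply (i j : Fin 8) : L8.e i j = if j = i then 1 else 0 := rfl

open L8

theorem b34 : L8.br (e 3) (e 4) = e 4 := by
  apply L8.ext' <;> simp [L8.br0, L8.br1, L8.br2, L8.br3, L8.br4, L8.br5, L8.br6, L8.br7, e_apply]
theorem b35 : L8.br (e 3) (e 5) = e 5 := by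
  apply L8.ext' <;> simp [L8.br0, L8.br1, L8.br2, L8.br3, L8.br4, L8.br5, L8.br6, L8.br7, e_apply]
theorem b36 : L8.br (e 3) (e 6) = - e 6 := by
  apply L8.ext' <;> simp [L8.br0, L8.br1, L8.br2, L8.br3, L8.br4, L8.br5, L8.br6, L8.br7, e_apply]
theorem b37 : L8.br (e 3) (e 7) = - e 7 := by
  apply L8.ext' <;> simp [L8.br0, L8.br1, L8.br2, L8.br3, L8.br4, L8.br5, L8.br6, L8.br7, e_apply]
theorem b30 : L8.br (e 3) (e 0) = 0 := by
  apply L8.ext' <;> simp [L8.br0, L8.br1, L8.br2, L8.br3, L8.br4, L8.br5, L8.br6, L8.br7, e_apply]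
theorem b31 : L8.br (e 3) (e 1) = 0 := by
  apply L8.ext' <;> simp [L8.br0, L8.br1, L8.br2, L8.br3, L8.br4, L8.br5, L8.br6, L8.br7, e_apply]
theorem b32 : L8.br (e 3) (e 2) = 0 := by
  apply L8.ext' <;> simp [L8.br0, L8.br1, L8.br2, L8.br3, L8.br4, L8.br5, L8.br6, L8.br7, e_apply]
theorem b04 : L8.br (e 0) (e 4) = e 4 := by
  apply L8.ext' <;> simp [L8.br0, L8.br1, L8.br2, L8.br3, L8.br4, L8.br5, L8.br6, L8.br7, e_apply]
theorem b05 : L8.br (e 0) (e 5) = - e 5 := by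
  apply L8.ext' <;> simp [L8.br0, L8.br1, L8.br2, L8.br3, L8.br4, L8.br5, L8.br6, L8.br7, e_apply]
theorem b14 : L8.br (e 1) (e 4) = 0 := by
  apply L8.ext' <;> simp [L8.br0, L8.br1, L8.br2, L8.br3, L8.br4, L8.br5, L8.br6, L8.br7, e_apply]
theorem b15 : L8.br (e 1) (e 5) = e 4 := by
  apply L8.ext' <;> simp [L8.br0, L8.br1, L8.br2, L8.br3, L8.br4, L8.br5, L8.br6, L8.br7, e_apply]
theorem b24 : L8.br (e 2) (e 4) = e 5 := by
  apply L8.ext' <;> simp [L8.br0, L8.br1, L8.br2, L8.br3, L8.br4, L8.br5, L8.br6, L8.br7, e_apply]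
theorem b25 : L8.br (e 2) (e 5) = 0 := by
  apply L8.ext' <;> simp [L8.br0, L8.br1, L8.br2, L8.br3, L8.br4, L8.br5, L8.br6, L8.br7, e_apply]
theorem b06 : L8.br (e 0) (e 6) = e 6 := by
  apply L8.ext' <;> simp [L8.br0, L8.br1, L8.br2, L8.br3, L8.br4, L8.br5, L8.br6, L8.br7, e_apply]
theorem b07 : L8.br (e 0) (e 7) = - e 7 := by
  apply L8.ext' <;> simp [L8.br0, L8.br1, L8.br2, L8.br3, L8.br4, L8.br5, L8.br6, L8.br7, e_apply]
theorem b16 : L8.br (e 1) (e 6) = 0 := by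
  apply L8.ext' <;> simp [L8.br0, L8.br1, L8.br2, L8.br3, L8.br4, L8.br5, L8.br6, L8.br7, e_apply]
theorem b17 : L8.br (e 1) (e 7) = e 6 := by
  apply L8.ext' <;> simp [L8.br0, L8.br1, L8.br2, L8.br3, L8.br4, L8.br5, L8.br6, L8.br7, e_apply]
theorem b26 : L8.br (e 2) (e 6) = e 7 := by
  apply L8.ext' <;> simp [L8.br0, L8.br1, L8.br2, L8.br3, L8.br4, L8.br5, L8.br6, L8.br7, e_apply]
theorem b27 : L8.br (e 2) (e 7) = 0 := by
  apply L8.ext' <;> simp [L8.br0, L8.br1, L8.br2, L8.br3, L8.br4, L8.br5, L8.br6, L8.br7, e_apply]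
theorem b01 : L8.br (e 0) (e 1) = (2 : ℂ) • e 1 := by
  apply L8.ext' <;> simp [L8.br0, L8.br1, L8.br2, L8.br3, L8.br4, L8.br5, L8.br6, L8.br7, e_apply]
theorem b02 : L8.br (e 0) (e 2) = (-2 : ℂ) • e 2 := by
  apply L8.ext' <;> simp [L8.br0, L8.br1, L8.br2, L8.br3, L8.br4, L8.br5, L8.br6, L8.br7, e_apply]

theorem L8.sum_e (x : L8) : x = x 0 • e 0 + x 1 • e 1 + x 2 • e 2 + x 3 • e 3 + x 4 • e 4
    + x 5 • e 5 + x 6 • e 6 + x 7 • e 7 := by
  apply L8.ext' <;> simp [e_apply]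



theorem hd_coord {φ : L8 →ₗ[ℂ] L8} (h : IsHalfDerivation φ) (x y : L8) (k : Fin 8) :
    φ (L8.br x y) k = (1 / 2) * (L8.br (φ x) y k + L8.br x (φ y) k) := by
  have := congrFun (h x y) k
  simpa using this

set_option maxHeartbeats 4000000 in
theorem L8_rigid (φ : L8 →ₗ[ℂ] L8) (h : IsHalfDerivation φ) : ∃ c : ℂ, φ = c • LinearMap.id := by
  refine ⟨φ (e 3) 3, ?_⟩
  have H := hd_coord h
  have h300 := H (e 3) (e 0) 0
  have h301 := H (e 3) (e 0) 1
  have h302 := H (e 3) (e 0) 2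
  have h303 := H (e 3) (e 0) 3
  have h304 := H (e 3) (e 0) 4
  have h305 := H (e 3) (e 0) 5
  have h306 := H (e 3) (e 0) 6
  have h307 := H (e 3) (e 0) 7
  rw [b30, map_zero] at h300 h301 h302 h303 h304 h305 h306 h307
  simp [L8.br0, L8.br1, L8.br2, L8.br3, L8.br4, L8.br5, L8.br6, L8.br7, e_apply] at h300 h301 h302 h303 h304 h305 h306 h307
  have h310 := H (e 3) (e 1) 0
  have h311 := H (e 3) (e 1) 1
  have h312 := H (e 3) (e 1) 2
  have h313 := H (e 3) (e 1) 3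
  have h314 := H (e 3) (e 1) 4
  have h315 := H (e 3) (e 1) 5
  have h316 := H (e 3) (e 1) 6
  have h317 := H (e 3) (e 1) 7
  rw [b31, map_zero] at h310 h311 h312 h313 h314 h315 h316 h317
  simp [L8.br0, L8.br1, L8.br2, L8.br3, L8.br4, L8.br5, L8.br6, L8.br7, e_apply] at h310 h311 h312 h313 h314 h315 h316 h317
  have h320 := H (e 3) (e 2) 0
  have h321 := H (e 3) (e 2) 1
  have h322 := H (e 3) (e 2) 2
  have h323 := H (e 3) (e 2) 3
  have h324 := H (e 3) (e 2) 4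
  have h325 := H (e 3) (e 2) 5
  have h326 := H (e 3) (e 2) 6
  have h327 := H (e 3) (e 2) 7
  rw [b32, map_zero] at h320 h321 h322 h323 h324 h325 h326 h327
  simp [L8.br0, L8.br1, L8.br2, L8.br3, L8.br4, L8.br5, L8.br6, L8.br7, e_apply] at h320 h321 h322 h323 h324 h325 h326 h327
  have h340 := H (e 3) (e 4) 0
  have h341 := H (e 3) (e 4) 1
  have h342 := H (e 3) (e 4) 2
  have h343 := H (e 3) (e 4) 3
  have h344 := H (e 3) (e 4) 4
  have h345 := H (e 3) (e 4) 5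
  have h346 := H (e 3) (e 4) 6
  have h347 := H (e 3) (e 4) 7
  rw [b34] at h340 h341 h342 h343 h344 h345 h346 h347
  simp [L8.br0, L8.br1, L8.br2, L8.br3, L8.br4, L8.br5, L8.br6, L8.br7, e_apply] at h340 h341 h342 h343 h344 h345 h346 h347
  have h350 := H (e 3) (e 5) 0
  have h351 := H (e 3) (e 5) 1
  have h352 := H (e 3) (e 5) 2
  have h353 := H (e 3) (e 5) 3
  have h354 := H (e 3) (e 5) 4
  have h355 := H (e 3) (e 5) 5
  have h356 := H (e 3) (e 5) 6
  have h357 := H (e 3) (e 5) 7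
  rw [b35] at h350 h351 h352 h353 h354 h355 h356 h357
  simp [L8.br0, L8.br1, L8.br2, L8.br3, L8.br4, L8.br5, L8.br6, L8.br7, e_apply] at h350 h351 h352 h353 h354 h355 h356 h357
  have h360 := H (e 3) (e 6) 0
  have h361 := H (e 3) (e 6) 1
  have h362 := H (e 3) (e 6) 2
  have h363 := H (e 3) (e 6) 3
  have h364 := H (e 3) (e 6) 4
  have h365 := H (e 3) (e 6) 5
  have h366 := H (e 3) (e 6) 6
  have h367 := H (e 3) (e 6) 7
  rw [b36, map_neg] at h360 h361 h362 h363 h364 h365 h366 h367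
  simp [L8.br0, L8.br1, L8.br2, L8.br3, L8.br4, L8.br5, L8.br6, L8.br7, e_apply] at h360 h361 h362 h363 h364 h365 h366 h367
  have h370 := H (e 3) (e 7) 0
  have h371 := H (e 3) (e 7) 1
  have h372 := H (e 3) (e 7) 2
  have h373 := H (e 3) (e 7) 3
  have h374 := H (e 3) (e 7) 4
  have h375 := H (e 3) (e 7) 5
  have h376 := H (e 3) (e 7) 6
  have h377 := H (e 3) (e 7) 7
  rw [b37, map_neg] at h370 h371 h372 h373 h374 h375 h376 h377
  simp [L8.br0, L8.br1, L8.br2, L8.br3, L8.br4, L8.br5, L8.br6, L8.br7, e_apply] at h370 h371 h372 h373 h374 h375 h376 h377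
  have h040 := H (e 0) (e 4) 0
  have h041 := H (e 0) (e 4) 1
  have h042 := H (e 0) (e 4) 2
  have h043 := H (e 0) (e 4) 3
  have h044 := H (e 0) (e 4) 4
  have h045 := H (e 0) (e 4) 5
  have h046 := H (e 0) (e 4) 6
  have h047 := H (e 0) (e 4) 7
  rw [b04] at h040 h041 h042 h043 h044 h045 h046 h047
  simp [L8.br0, L8.br1, L8.br2, L8.br3, L8.br4, L8.br5, L8.br6, L8.br7, e_apply] at h040 h041 h042 h043 h044 h045 h046 h047
  have h050 := H (e 0) (e 5) 0
  have h051 := H (e 0) (e 5) 1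
  have h052 := H (e 0) (e 5) 2
  have h053 := H (e 0) (e 5) 3
  have h054 := H (e 0) (e 5) 4
  have h055 := H (e 0) (e 5) 5
  have h056 := H (e 0) (e 5) 6
  have h057 := H (e 0) (e 5) 7
  rw [b05, map_neg] at h050 h051 h052 h053 h054 h055 h056 h057
  simp [L8.br0, L8.br1, L8.br2, L8.br3, L8.br4, L8.br5, L8.br6, L8.br7, e_apply] at h050 h051 h052 h053 h054 h055 h056 h057
  have h140 := H (e 1) (e 4) 0
  have h141 := H (e 1) (e 4) 1
  have h142 := H (e 1) (e 4) 2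
  have h143 := H (e 1) (e 4) 3
  have h144 := H (e 1) (e 4) 4
  have h145 := H (e 1) (e 4) 5
  have h146 := H (e 1) (e 4) 6
  have h147 := H (e 1) (e 4) 7
  rw [b14, map_zero] at h140 h141 h142 h143 h144 h145 h146 h147
  simp [L8.br0, L8.br1, L8.br2, L8.br3, L8.br4, L8.br5, L8.br6, L8.br7, e_apply] at h140 h141 h142 h143 h144 h145 h146 h147
  have h150 := H (e 1) (e 5) 0
  have h151 := H (e 1) (e 5) 1
  have h152 := H (e 1) (e 5) 2
  have h153 := H (e 1) (e 5) 3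
  have h154 := H (e 1) (e 5) 4
  have h155 := H (e 1) (e 5) 5
  have h156 := H (e 1) (e 5) 6
  have h157 := H (e 1) (e 5) 7
  rw [b15] at h150 h151 h152 h153 h154 h155 h156 h157
  simp [L8.br0, L8.br1, L8.br2, L8.br3, L8.br4, L8.br5, L8.br6, L8.br7, e_apply] at h150 h151 h152 h153 h154 h155 h156 h157
  have h240 := H (e 2) (e 4) 0
  have h241 := H (e 2) (e 4) 1
  have h242 := H (e 2) (e 4) 2
  have h243 := H (e 2) (e 4) 3
  have h244 := H (e 2) (e 4) 4
  have h245 := H (e 2) (e 4) 5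
  have h246 := H (e 2) (e 4) 6
  have h247 := H (e 2) (e 4) 7
  rw [b24] at h240 h241 h242 h243 h244 h245 h246 h247
  simp [L8.br0, L8.br1, L8.br2, L8.br3, L8.br4, L8.br5, L8.br6, L8.br7, e_apply] at h240 h241 h242 h243 h244 h245 h246 h247
  have h250 := H (e 2) (e 5) 0
  have h251 := H (e 2) (e 5) 1
  have h252 := H (e 2) (e 5) 2
  have h253 := H (e 2) (e 5) 3
  have h254 := H (e 2) (e 5) 4
  have h255 := H (e 2) (e 5) 5
  have h256 := H (e 2) (e 5) 6
  have h257 := H (e 2) (e 5) 7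
  rw [b25, map_zero] at h250 h251 h252 h253 h254 h255 h256 h257
  simp [L8.br0, L8.br1, L8.br2, L8.br3, L8.br4, L8.br5, L8.br6, L8.br7, e_apply] at h250 h251 h252 h253 h254 h255 h256 h257
  have h060 := H (e 0) (e 6) 0
  have h061 := H (e 0) (e 6) 1
  have h062 := H (e 0) (e 6) 2
  have h063 := H (e 0) (e 6) 3
  have h064 := H (e 0) (e 6) 4
  have h065 := H (e 0) (e 6) 5
  have h066 := H (e 0) (e 6) 6
  have h067 := H (e 0) (e 6) 7
  rw [b06] at h060 h061 h062 h063 h064 h065 h066 h067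
  simp [L8.br0, L8.br1, L8.br2, L8.br3, L8.br4, L8.br5, L8.br6, L8.br7, e_apply] at h060 h061 h062 h063 h064 h065 h066 h067
  have h070 := H (e 0) (e 7) 0
  have h071 := H (e 0) (e 7) 1
  have h072 := H (e 0) (e 7) 2
  have h073 := H (e 0) (e 7) 3
  have h074 := H (e 0) (e 7) 4
  have h075 := H (e 0) (e 7) 5
  have h076 := H (e 0) (e 7) 6
  have h077 := H (e 0) (e 7) 7
  rw [b07, map_neg] at h070 h071 h072 h073 h074 h075 h076 h077
  simp [L8.br0, L8.br1, L8.br2, L8.br3, L8.br4, L8.br5, L8.br6, L8.br7, e_apply] at h070 h071 h072 h073 h074 h075 h076 h077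
  have h160 := H (e 1) (e 6) 0
  have h161 := H (e 1) (e 6) 1
  have h162 := H (e 1) (e 6) 2
  have h163 := H (e 1) (e 6) 3
  have h164 := H (e 1) (e 6) 4
  have h165 := H (e 1) (e 6) 5
  have h166 := H (e 1) (e 6) 6
  have h167 := H (e 1) (e 6) 7
  rw [b16, map_zero] at h160 h161 h162 h163 h164 h165 h166 h167
  simp [L8.br0, L8.br1, L8.br2, L8.br3, L8.br4, L8.br5, L8.br6, L8.br7, e_apply] at h160 h161 h162 h163 h164 h165 h166 h167
  have h170 := H (e 1) (e 7) 0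
  have h171 := H (e 1) (e 7) 1
  have h172 := H (e 1) (e 7) 2
  have h173 := H (e 1) (e 7) 3
  have h174 := H (e 1) (e 7) 4
  have h175 := H (e 1) (e 7) 5
  have h176 := H (e 1) (e 7) 6
  have h177 := H (e 1) (e 7) 7
  rw [b17] at h170 h171 h172 h173 h174 h175 h176 h177
  simp [L8.br0, L8.br1, L8.br2, L8.br3, L8.br4, L8.br5, L8.br6, L8.br7, e_apply] at h170 h171 h172 h173 h174 h175 h176 h177
  have h260 := H (e 2) (e 6) 0
  have h261 := H (e 2) (e 6) 1
  have h262 := H (e 2) (e 6) 2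
  have h263 := H (e 2) (e 6) 3
  have h264 := H (e 2) (e 6) 4
  have h265 := H (e 2) (e 6) 5
  have h266 := H (e 2) (e 6) 6
  have h267 := H (e 2) (e 6) 7
  rw [b26] at h260 h261 h262 h263 h264 h265 h266 h267
  simp [L8.br0, L8.br1, L8.br2, L8.br3, L8.br4, L8.br5, L8.br6, L8.br7, e_apply] at h260 h261 h262 h263 h264 h265 h266 h267
  have h270 := H (e 2) (e 7) 0
  have h271 := H (e 2) (e 7) 1
  have h272 := H (e 2) (e 7) 2
  have h273 := H (e 2) (e 7) 3
  have h274 := H (e 2) (e 7) 4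
  have h275 := H (e 2) (e 7) 5
  have h276 := H (e 2) (e 7) 6
  have h277 := H (e 2) (e 7) 7
  rw [b27, map_zero] at h270 h271 h272 h273 h274 h275 h276 h277
  simp [L8.br0, L8.br1, L8.br2, L8.br3, L8.br4, L8.br5, L8.br6, L8.br7, e_apply] at h270 h271 h272 h273 h274 h275 h276 h277
  have h010 := H (e 0) (e 1) 0
  have h011 := H (e 0) (e 1) 1
  have h012 := H (e 0) (e 1) 2
  have h013 := H (e 0) (e 1) 3
  have h014 := H (e 0) (e 1) 4
  have h015 := H (e 0) (e 1) 5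
  have h016 := H (e 0) (e 1) 6
  have h017 := H (e 0) (e 1) 7
  rw [b01, map_smul] at h010 h011 h012 h013 h014 h015 h016 h017
  simp [L8.br0, L8.br1, L8.br2, L8.br3, L8.br4, L8.br5, L8.br6, L8.br7, e_apply] at h010 h011 h012 h013 h014 h015 h016 h017
  have h020 := H (e 0) (e 2) 0
  have h021 := H (e 0) (e 2) 1
  have h022 := H (e 0) (e 2) 2
  have h023 := H (e 0) (e 2) 3
  have h024 := H (e 0) (e 2) 4
  have h025 := H (e 0) (e 2) 5
  have h026 := H (e 0) (e 2) 6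
  have h027 := H (e 0) (e 2) 7
  rw [b02, map_smul] at h020 h021 h022 h023 h024 h025 h026 h027
  simp [L8.br0, L8.br1, L8.br2, L8.br3, L8.br4, L8.br5, L8.br6, L8.br7, e_apply] at h020 h021 h022 h023 h024 h025 h026 h027
  clear H h
  have u0 : φ (e 3) 0 = 0 := h322
  have u1 : φ (e 3) 1 = 0 := h320
  have u2 : φ (e 3) 2 = 0 := h310
  have E4 : φ (e 4) = φ (e 3) 3 • e 4 := by
    apply L8.ext' <;> simp [e_apply] <;> grind
  have E5 : φ (e 5) = φ (e 3) 3 • e 5 := by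
    apply L8.ext' <;> simp [e_apply] <;> grind
  have E6 : φ (e 6) = φ (e 3) 3 • e 6 := by
    apply L8.ext' <;> simp [e_apply] <;> grind
  have E7 : φ (e 7) = φ (e 3) 3 • e 7 := by
    apply L8.ext' <;> simp [e_apply] <;> grind
  have E0 : φ (e 0) = φ (e 3) 3 • e 0 := by
    apply L8.ext' <;> simp [e_apply] <;> grind
  have E1 : φ (e 1) = φ (e 3) 3 • e 1 := by
    apply L8.ext' <;> simp [e_apply] <;> grind
  have E2 : φ (e 2) = φ (e 3) 3 • e 2 := by
    apply L8.ext' <;> simp [e_apply] <;> grind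
  have E3 : φ (e 3) = φ (e 3) 3 • e 3 := by
    apply L8.ext' <;> simp [e_apply] <;> grind
  refine LinearMap.ext fun x => ?_
  conv_lhs => rw [L8.sum_e x]
  simp only [map_add, map_smul]
  rw [E0, E1, E2, E4, E5, E6, E7]
  obtain ⟨c, hc⟩ : ∃ c, c = φ (e 3) 3 := ⟨_, rfl⟩
  rw [← hc] at E3 ⊢
  rw [E3]
  apply L8.ext' <;> simp [e_apply] <;> ring

end Pool.Agent.Lib.MP_d69fce_al
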